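import Pool.Agent.H681.MD.Brg
import Pool.Agent.H681.MD.TM

set_option autoImplicit false

/-!
# The multiple Dirichlet series of quadratic `L`-functions at generic heights

Let `s = ±1` and let `d` run over the fundamental discriminants of sign `s` (for `s = 1` the positive ones, as in the
problem) with `|d| ≥ 2`, that is, let `χ = χ_d` run over the real primitive Dirichlet characters of conductor
`q = |d| ≥ 2` with `χ(-1) = s`. Let `c_M(q, t) = χ_d(M) ∏_j L(1/2 + i t_j, χ_d)` for `|d| = q` and `0` if there is no such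
`d`. For `k ≥ 1` and all `M` we study `∑_q c_M(q, t) q^(-w)`, the function `A_M(1/2 + i t_1, …, 1/2 + i t_k; w)` of the
problem without the term `d = 1`, in the half plane `Re w ≥ 1/2`, i.e. beyond the line `Re w = 1` of its first pole.

Let `T_M(s_1, …, s_k)` be the residue of the problem, the sum over the `n` with `M n_1 ⋯ n_k = □`, continued to
`s_j = 1/2 + i t_j` by its Euler product and `∏_{i ≤ j} ζ(s_i + s_j)`.

For all vectors `t` in the cube `[-H, H]^k`, `X^2 ≤ H ≤ X^A`, except for a set of measure `H^k X^(-δ)`: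

* `∑_{Y ≤ q < X} c_M(q, t) q^(-w) = T_M ∑_{Y ≤ n < X} n^(-w) + O(√M (1 + |w|) X^ε Y^(1/2 - Re w))` for ALL `w` with
  `Re w ≥ 1/2` and ALL `M ≤ X`, even in mean square over `M` (weights `1/M`);
* `∑_{Y ≤ q < X} g(q) (c_M(q, t) - T_M)` is bounded for ALL weights `g` and ALL `M ≤ X` at once; for `g = 1` and for
  smooth weights `g(q / X')`, `X' ≤ X` (moments with a twist), the error is `√M X^ε` times the square root of the length.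

In the smaller cubes, `X^(1 + η) ≤ H`, the errors are multiplied by `(1 + X^2/H)^(1/2)`.

Moreover, for arbitrary coefficients `β_q` and `0 < θ ≤ 2`,
`∑_{q < x} β_q (∏_j L(1/2 + i t_j, χ_d) - ∑_{n_1 ⋯ n_k ≤ X^θ} χ_d(n_1 ⋯ n_k) ∏ n_j^(-1/2 - i t_j))` is
`O(X^ε (X^(1/2 - θ/4) + X H^(-1/2)) ‖β‖_2)`, uniformly in `x ≤ X`, for almost all `t` in the same sense.

The proof: the operator with the kernel `∏_j L(1/2 + i t_j, χ_d)` minus the product of Dirichlet polynomials of length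
`H`, between the family and the cube, is of norm `X^ε (1 + X^2/H)^(1/2)` (relative to the volume of the cube); the
averages of `χ_d(m)` over the family have errors of square root size in mean square over `m` (Heath-Brown's large sieve
for real characters and Poisson summation); the diagonal sums over the boxes `n_j ≤ H` are compared with `T_M` in mean
square over the cube, uniformly in `M`. Partial summation with the Cauchy-Schwarz inequality gives all `w` and all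
weights `g` at once; the Rademacher-Menshov inequality gives all `x` at once in the last statement.
-/

namespace Pool.Agent.Results.MP_fed7ff_nt.HalfPlaneAtGenericHeights

open Complex MeasureTheory

noncomputable section

/-- The characters `χ_d` of the fundamental discriminants `d` of sign `s` with `|d| = q` (`q ≥ 2`): the real primitive
characters modulo `q` with `χ(-1) = s`. There is at most one. -/
def chars (s : ℤ) (q : ℕ) : Set (DirichletCharacter ℂ q) :=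
  {χ | χ.IsPrimitive ∧ χ ^ 2 = 1 ∧ χ (-1) = (s : ℂ)}

/-- The `L`-function of a Dirichlet character modulo `q ≥ 1` (the analytic continuation of `∑ χ(n) n^(-z)`). -/
def L {q : ℕ} (χ : DirichletCharacter ℂ q) (z : ℂ) : ℂ :=
  if h : q ≠ 0 then haveI : NeZero q := ⟨h⟩; DirichletCharacter.LFunction χ z else 0

/-- `c_M(q, t) = ∑_{|d| = q} χ_d(M) ∏_j L(1/2 + i t_j, χ_d)`, `d` of sign `s`. -/
def c {k : ℕ} (s : ℤ) (M : ℕ) (t : Fin k → ℝ) (q : ℕ) : ℂ :=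
  ∑ᶠ χ ∈ chars s q, χ (M : ZMod q) * ∏ j, L χ (1 / 2 + I * (t j : ℂ))

/-- `a(n) = ∏_{p ∣ n} p / (p + 1)`. -/
def a (n : ℕ) : ℝ := ∏ p ∈ n.primeFactors, (p : ℝ) / (p + 1)

/-- The Euler factor at `p` of `T_M`, divided by the one of `∏_{i ≤ j} ζ(s_i + s_j)`. -/
def localFactor {k : ℕ} (M : ℕ) (s : Fin k → ℂ) (p : ℕ) : ℂ :=
  (∏ i, ∏ j ∈ Finset.Ici i, (1 - (p : ℂ) ^ (-(s i + s j)))) *
    (if p ∣ M then 1 / 2 * ((∏ j, (1 - (p : ℂ) ^ (-s j))⁻¹) +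
        (-1) ^ (M.factorization p) * ∏ j, (1 + (p : ℂ) ^ (-s j))⁻¹)
      else 1 / 2 * ((∏ j, (1 - (p : ℂ) ^ (-s j))⁻¹) + ∏ j, (1 + (p : ℂ) ^ (-s j))⁻¹) + 1 / (p : ℂ)) *
    (1 + 1 / (p : ℂ))⁻¹

/-- `T_M(s_1, …, s_k) = (3/π²) ∏_p localFactor ∏_{i ≤ j} ζ(s_i + s_j)`. -/
def T {k : ℕ} (M : ℕ) (s : Fin k → ℂ) : ℂ :=
  3 / (Real.pi : ℂ) ^ 2 * ((∏' p : Nat.Primes, localFactor M s p) *
    ∏ i, ∏ j ∈ Finset.Ici i, riemannZeta (s i + s j))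

/-- `T_M(1/2 + i t_1, …, 1/2 + i t_k)`. -/
def Tt {k : ℕ} (M : ℕ) (t : Fin k → ℝ) : ℂ := T M (fun j => 1 / 2 + I * (t j : ℂ))

/-- `∑_{n_1 ⋯ n_k ≤ Z} χ(n_1 ⋯ n_k) ∏_j n_j^(-1/2 - i t_j)`. -/
def poly {k q : ℕ} (Z : ℕ) (χ : DirichletCharacter ℂ q) (t : Fin k → ℝ) : ℂ :=
  ∑ n ∈ (Fintype.piFinset (fun _ : Fin k => Finset.Icc 1 Z)).filter (fun n => ∏ j, n j ≤ Z),
    χ ((∏ j, n j : ℕ) : ZMod q) * ∏ j, (n j : ℂ) ^ (-(1 / 2 + I * (t j : ℂ)))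

lemma T_eq {k : ℕ} (M : ℕ) (s : Fin k → ℂ) :
    T M s = ((3 / Real.pi ^ 2 : ℝ) : ℂ) * Pool.Agent.H681.MD.MTM M (fun j => s j - 1 / 2) := by
  have e1 : ∀ i j : Fin k, s i + s j = 1 + (s i - 1 / 2) + (s j - 1 / 2) := fun i j => by ring
  have e2 : ∀ j : Fin k, s j = 1 / 2 + (s j - 1 / 2) := fun j => by ring
  unfold T Pool.Agent.H681.MD.MTM Pool.Agent.H681.MD.AkM
  rw [Pool.Agent.N879.QM.prod_Pr (fun i j => riemannZeta (1 + (s i - 1 / 2) + (s j - 1 / 2)))]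
  have h1 : ∏ i, ∏ j ∈ Finset.Ici i, riemannZeta (s i + s j) =
      ∏ i, ∏ j ∈ Finset.Ici i, riemannZeta (1 + (s i - 1 / 2) + (s j - 1 / 2)) :=
    Finset.prod_congr rfl fun i _ => Finset.prod_congr rfl fun j _ => by rw [e1 i j]
  have h2 : ∀ p : Nat.Primes, localFactor M s p = Pool.Agent.H681.MD.locM M (fun j => s j - 1 / 2) p := by
    intro p
    unfold localFactor Pool.Agent.H681.MD.locM
    rw [Pool.Agent.N879.QM.prod_Pr (fun i j => 1 - ((p : ℕ) : ℂ) ^ (-(1 + (s i - 1 / 2) + (s j - 1 / 2))))]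
    simp only [← e1, ← e2]
  rw [h1, tprod_congr h2]
  push_cast
  rfl

lemma Tt_eq {k : ℕ} (M : ℕ) (t : Fin k → ℝ) :
    Tt M t = ((3 / Real.pi ^ 2 : ℝ) : ℂ) * Pool.Agent.H681.MD.TT M t := by
  unfold Tt Pool.Agent.H681.MD.TT Pool.Agent.N879.QM.im
  rw [T_eq]
  congr 2
  funext j
  ring

open Classical in
/-- For every `k ≥ 1`:

(1) `T_M` is the residue of the problem: for `Re s_j > 1`,
`T_M(s) = (1/(2ζ(2))) ∑_{M n_1 ⋯ n_k = □} a(M n_1 ⋯ n_k) ∏ n_j^(-s_j)` (`3/π² = 1/(2ζ(2))`).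

(2) For all `η, ε > 0` and `A` there are `δ > 0`, `X₀` such that for both signs `s`, `X ≥ X₀`, `2 ≤ Y ≤ X` and
`X^(1+η) ≤ H ≤ X^A`, outside of a set of measure `≤ H^k X^(-δ)` of vectors `t` in `[-H, H]^k`: for all weights `g`,
`∑_{M ≤ X} (1/M) |∑_{Y ≤ q < X} g(q) (c_M(q,t) - T_M)|² ≤
X^ε (1 + X²/H) (X |g(X)|² + Y |g(Y)|² + ∑_{Y ≤ n < X} (n+1)² |g(n+1) - g(n)|²)`, and for all `w` with `Re w ≥ 1/2`,
`∑_{M ≤ X} (1/M) |∑_{Y ≤ q < X} c_M(q,t) q^(-w) - T_M ∑_{Y ≤ n < X} n^(-w)|² ≤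
X^ε (1 + X²/H) (1+|w|)² Y^(1 - 2 Re w)`.

(3) For all `η, ε > 0`, `A` and `0 < θ ≤ 2` there are `δ > 0`, `X₀` such that for both signs `s`, `X ≥ X₀`,
`X^(1+η), X^θ ≤ H ≤ X^A` and all `β`, outside of a set of measure `≤ H^k X^(-δ)` of `t` in `[-H, H]^k`, for all `x ≤ X`:
`|∑_{|d| < x} β_{|d|} (∏_j L(1/2 + i t_j, χ_d) - ∑_{n_1 ⋯ n_k ≤ X^θ} χ_d(n_1 ⋯ n_k) ∏ n_j^(-1/2 - i t_j))| ≤
X^ε (X^(1/2 - θ/4) + X H^(-1/2)) (∑_{q < X} |β_q|²)^(1/2)`. -/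
theorem result (k : ℕ) (hk : 1 ≤ k) :
    (∀ (M : ℕ) (s : Fin k → ℂ), 1 ≤ M → (∀ j, 1 < (s j).re) →
      HasSum (fun n : Fin k → ℕ => if (∀ j, n j ≠ 0) ∧ IsSquare (M * ∏ j, n j) then
        3 / (Real.pi : ℂ) ^ 2 * ((a (M * ∏ j, n j) : ℂ) * ∏ j, (n j : ℂ) ^ (-s j)) else 0) (T M s)) ∧
    (∀ η A ε : ℝ, 0 < η → 0 < ε → ∃ δ X₀ : ℝ, 0 < δ ∧ ∀ (s : ℤ) (X Y : ℕ) (H : ℝ), s = 1 ∨ s = -1 → X₀ ≤ X →
      2 ≤ Y → Y ≤ X → (X : ℝ) ^ (1 + η) ≤ H → H ≤ (X : ℝ) ^ A →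
      volume {t : Fin k → ℝ | (∀ j, |t j| ≤ H) ∧ ¬ (
        (∀ g : ℕ → ℂ, ∑ M ∈ Finset.Icc 1 X, (M : ℝ)⁻¹ *
          ‖∑ q ∈ Finset.Ico Y X, g q * (c s M t q - Tt M t)‖ ^ 2 ≤
          (X : ℝ) ^ ε * (1 + (X : ℝ) ^ 2 / H) * (X * ‖g X‖ ^ 2 + Y * ‖g Y‖ ^ 2 +
            ∑ n ∈ Finset.Ico Y X, ((n : ℝ) + 1) ^ 2 * ‖g (n + 1) - g n‖ ^ 2)) ∧
        ∀ w : ℂ, 1 / 2 ≤ w.re → ∑ M ∈ Finset.Icc 1 X, (M : ℝ)⁻¹ *
          ‖∑ q ∈ Finset.Ico Y X, c s M t q * (q : ℂ) ^ (-w) - Tt M t * ∑ n ∈ Finset.Ico Y X, (n : ℂ) ^ (-w)‖ ^ 2 ≤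
          (X : ℝ) ^ ε * (1 + (X : ℝ) ^ 2 / H) * ((1 + ‖w‖) ^ 2 * (Y : ℝ) ^ (1 - 2 * w.re)))} ≤
      ENNReal.ofReal (H ^ k * (X : ℝ) ^ (-δ))) ∧
    ∀ η A θ ε : ℝ, 0 < η → 0 < θ → θ ≤ 2 → 0 < ε → ∃ δ X₀ : ℝ, 0 < δ ∧ ∀ (s : ℤ) (X : ℕ) (H : ℝ),
      s = 1 ∨ s = -1 → X₀ ≤ X → (X : ℝ) ^ (1 + η) ≤ H → (X : ℝ) ^ θ ≤ H → H ≤ (X : ℝ) ^ A → ∀ β : ℕ → ℂ,
      volume {t : Fin k → ℝ | (∀ j, |t j| ≤ H) ∧ ∃ x ≤ X,
        (X : ℝ) ^ ε * ((X : ℝ) ^ (1 / 2 - θ / 4) + X / Real.sqrt H) *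
          Real.sqrt (∑ q ∈ Finset.Ico 2 X, ‖β q‖ ^ 2) <
        ‖∑ q ∈ Finset.Ico 2 x, ∑ᶠ χ ∈ chars s q,
          β q * (∏ j, L χ (1 / 2 + I * (t j : ℂ)) - poly ⌊(X : ℝ) ^ θ⌋₊ χ t)‖} ≤
      ENNReal.ofReal (H ^ k * (X : ℝ) ^ (-δ)) := by
  have hb : ∀ s : ℤ, s = 1 ∨ s = -1 → ∃ b : Bool, s = if b then -1 else 1 := by
    rintro s (rfl | rfl)
    · exact ⟨false, rfl⟩
    · exact ⟨true, rfl⟩
  refine ⟨?_, ?_, ?_⟩
  · intro M s hM hs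
    have h1 := Pool.Agent.H176.MD.TM k M (fun j => s j - 1 / 2) hM (fun j => by
      have := hs j
      simp only [Complex.sub_re, Complex.div_ofNat_re, Complex.one_re]
      linarith)
    have h2 := h1.mul_left (3 / (Real.pi : ℂ) ^ 2)
    have e1 : T M s = 3 / (Real.pi : ℂ) ^ 2 * (Pool.Agent.H681.MD.AkM M (fun j => s j - 1 / 2) *
        ∏ r : Pool.Agent.N879.QM.Pr k, riemannZeta (1 + (fun j => s j - 1 / 2) r.1.1 +
          (fun j => s j - 1 / 2) r.1.2)) := by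
      rw [T_eq]
      unfold Pool.Agent.H681.MD.MTM
      push_cast
      rfl
    rw [e1]
    have e2 : (fun n : Fin k → ℕ => if (∀ j, n j ≠ 0) ∧ IsSquare (M * ∏ j, n j) then
        3 / (Real.pi : ℂ) ^ 2 * ((a (M * ∏ j, n j) : ℂ) * ∏ j, (n j : ℂ) ^ (-s j)) else 0) =
        fun n : Fin k → ℕ => 3 / (Real.pi : ℂ) ^ 2 * (if (∀ j, n j ≠ 0) ∧ IsSquare (M * ∏ j, n j) then
          (Pool.Agent.N879.QM.af (M * ∏ j, n j) : ℂ) *
            ∏ j, (n j : ℂ) ^ (-(1 / 2 + (fun j => s j - 1 / 2) j)) else 0) := by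
      funext n
      have e3 : ∀ j : Fin k, -(1 / 2 + (fun j => s j - 1 / 2) j) = -s j := fun j => by
        simp only
        ring
      simp only [e3]
      split_ifs with h
      · rfl
      · rw [mul_zero]
    rw [e2]
    exact h2
  · intro η A ε hη hε
    obtain ⟨δ, X₀, hδ, h1⟩ := Pool.Agent.H681.MD.genT k hk (A := A) hη hε
    refine ⟨δ, X₀, hδ, ?_⟩
    intro s X Y H hs hX hY hYX hH1 hH2
    obtain ⟨b, hb⟩ := hb s hs
    have h2 := h1 b s X Y H hb hX hY hYX hH1 hH2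
    simp only [← Tt_eq] at h2
    exact h2
  · intro η A θ ε hη hθ0 hθ hε
    obtain ⟨δ, X₀, hδ, h1⟩ := Pool.Agent.H681.MD.genC k hk (A := A) hη hθ0 hθ hε
    refine ⟨δ, X₀, hδ, ?_⟩
    intro s X H hs hX hH1 hHθ hH2 β
    obtain ⟨b, hb⟩ := hb s hs
    exact h1 b s X H hb hX hH1 hHθ hH2 β

end

end Pool.Agent.Results.MP_fed7ff_nt.HalfPlaneAtGenericHeights
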